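import Mathlib

/-!
# Definitions: weighted signed counts of partitions with parts in a finite set
-/

set_option autoImplicit false

namespace Pool.Agent.Lib.MP_e74e95_nt

/-- `cA A i n` is the number of partitions of `n` with all parts in `A` and exactly `i` parts. -/
def cA (A : Finset ℕ) (i n : ℕ) : ℕ :=
  ((Finset.univ : Finset (Nat.Partition n)).filter
    (fun P => (∀ a ∈ P.parts, a ∈ A) ∧ P.parts.card = i)).card

/-- `S A k n = ∑_{i = 0}^{n} (-1) ^ i * i ^ k * cA A i n` (with `0 ^ 0 = 1`). -/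
def S (A : Finset ℕ) (k n : ℕ) : ℤ :=
  ∑ i ∈ Finset.range (n + 1), (-1) ^ i * (i : ℤ) ^ k * (cA A i n : ℤ)

/-- `U m = {1!, 2!, ..., m!}`. -/
def U (m : ℕ) : Finset ℕ := (Finset.Icc 1 m).image Nat.factorial

end Pool.Agent.Lib.MP_e74e95_nt
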