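import Mathlib

set_option autoImplicit false

open Polynomial

namespace Pool.Agent.Lib.MP_e74e95_nt

lemma natDegree_comp_sub_one (Q : ℚ[X]) (d : ℕ) (h : Q.natDegree ≤ d) :
    (Q.comp (X - C 1)).natDegree ≤ d := by
  refine le_trans natDegree_comp_le ?_
  rw [natDegree_X_sub_C, mul_one]
  exact h

/-- the coefficient of top degree of a composition with a linear polynomial -/
lemma coeff_comp_linear (Q : ℚ[X]) (d : ℕ) (h : Q.natDegree ≤ d) (u v : ℚ) :
    (Q.comp (C u * X + C v)).coeff d = Q.coeff d * u ^ d := by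
  have hQ : Q = ∑ i ∈ Finset.range (d + 1), C (Q.coeff i) * X ^ i :=
    Q.as_sum_range_C_mul_X_pow' (by omega)
  conv_lhs => rw [hQ]
  rw [Polynomial.sum_comp, finsetSum_coeff, Finset.sum_range_succ]
  have h0 : ∑ i ∈ Finset.range d, ((C (Q.coeff i) * X ^ i).comp (C u * X + C v)).coeff d = 0 := by
    apply Finset.sum_eq_zero
    intro i hi
    rw [Finset.mem_range] at hi
    apply coeff_eq_zero_of_natDegree_lt
    refine lt_of_le_of_lt natDegree_comp_le ?_
    have h1 : (C (Q.coeff i) * X ^ i : ℚ[X]).natDegree ≤ i := natDegree_C_mul_X_pow_le _ _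
    have h2 : (C u * X + C v : ℚ[X]).natDegree ≤ 1 := natDegree_linear_le
    calc _ ≤ i * 1 := Nat.mul_le_mul h1 h2
      _ < d := by omega
  rw [h0, zero_add, mul_comp, C_comp, pow_comp, X_comp, coeff_C_mul]
  congr 1
  have h3 : (C u * X + C v : ℚ[X]).natDegree ≤ 1 := natDegree_linear_le
  have h4 := coeff_pow_of_natDegree_le (m := d) h3
  rw [mul_one] at h4
  rw [h4]
  simp

lemma natDegree_comp_linear (Q : ℚ[X]) (d : ℕ) (h : Q.natDegree ≤ d) (u v : ℚ) :
    (Q.comp (C u * X + C v)).natDegree ≤ d := by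
  refine le_trans natDegree_comp_le ?_
  have h2 : (C u * X + C v : ℚ[X]).natDegree ≤ 1 := natDegree_linear_le
  calc _ ≤ d * 1 := Nat.mul_le_mul h h2
    _ = d := mul_one d

lemma comp_sub_one_eq (Q : ℚ[X]) : Q.comp (X - C 1) = Q.comp (C 1 * X + C (-1)) := by
  congr 1
  simp [sub_eq_add_neg]

lemma coeff_comp_sub_one (Q : ℚ[X]) (d : ℕ) (h : Q.natDegree ≤ d) :
    (Q.comp (X - C 1)).coeff d = Q.coeff d := by
  rw [comp_sub_one_eq, coeff_comp_linear Q d h]
  simp

/-- Solving `A(X) + A(X - 1) = Q(X)`. -/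
lemma addEq (d : ℕ) : ∀ Q : ℚ[X], Q.natDegree ≤ d →
    ∃ A : ℚ[X], A.natDegree ≤ d ∧ A.coeff d = Q.coeff d / 2 ∧
      ∀ x : ℚ, A.eval x + A.eval (x - 1) = Q.eval x := by
  induction d with
  | zero =>
    intro Q hQ
    have hQ' := eq_C_of_natDegree_le_zero hQ
    refine ⟨C (Q.coeff 0 / 2), by simp, by simp, ?_⟩
    intro x
    rw [hQ']
    simp
  | succ d ih =>
    intro Q hQ
    set q := Q.coeff (d + 1) with hq
    set A0 : ℚ[X] := C (q / 2) * X ^ (d + 1) with hA0
    have hA0deg : A0.natDegree ≤ d + 1 := natDegree_C_mul_X_pow_le _ _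
    have hA0coeff : A0.coeff (d + 1) = q / 2 := by
      rw [hA0, coeff_C_mul_X_pow]
      simp
    set R : ℚ[X] := Q - A0 - A0.comp (X - C 1) with hR
    have hRdeg : R.natDegree ≤ d + 1 := by
      refine le_trans (natDegree_sub_le _ _) (max_le ?_ (natDegree_comp_sub_one A0 _ hA0deg))
      exact le_trans (natDegree_sub_le _ _) (max_le hQ hA0deg)
    have hRcoeff : R.coeff (d + 1) = 0 := by
      rw [hR, coeff_sub, coeff_sub, coeff_comp_sub_one A0 _ hA0deg, hA0coeff, ← hq]
      ring
    have hRdeg' : R.natDegree ≤ d := by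
      by_contra hcon
      have h1 : R.natDegree = d + 1 := by omega
      have h2 : R.leadingCoeff = 0 := by
        rw [leadingCoeff, h1, hRcoeff]
      rw [leadingCoeff_eq_zero] at h2
      rw [h2] at h1
      simp at h1
    obtain ⟨A1, h1, _, h3⟩ := ih R hRdeg'
    refine ⟨A0 + A1, ?_, ?_, ?_⟩
    · exact le_trans (natDegree_add_le _ _) (max_le hA0deg (by omega))
    · rw [coeff_add, hA0coeff, coeff_eq_zero_of_natDegree_lt (by omega : A1.natDegree < d + 1)]
      ring
    · intro x
      have h4 := h3 x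
      rw [hR, eval_sub, eval_sub, eval_comp] at h4
      simp only [eval_sub, eval_X, eval_C] at h4
      rw [eval_add, eval_add]
      linarith

/-- Solving `B(X) - B(X - 1) = Q(X)` with a prescribed value. -/
lemma subEq (d : ℕ) : ∀ (Q : ℚ[X]) (v : ℚ), Q.natDegree ≤ d →
    ∃ B : ℚ[X], B.natDegree ≤ d + 1 ∧ ((d : ℚ) + 1) * B.coeff (d + 1) = Q.coeff d ∧
      (∀ x : ℚ, B.eval x - B.eval (x - 1) = Q.eval x) ∧ B.eval (-1) = v := by
  induction d with
  | zero =>
    intro Q v hQ
    have hQ' := eq_C_of_natDegree_le_zero hQ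
    refine ⟨C (Q.coeff 0) * X + C (v + Q.coeff 0), natDegree_linear_le, by simp, ?_, by simp⟩
    intro x
    rw [hQ']
    simp
    ring
  | succ d ih =>
    intro Q v hQ
    set q := Q.coeff (d + 1) with hq
    set B0 : ℚ[X] := C (q / (d + 2)) * X ^ (d + 2) with hB0
    have hB0deg : B0.natDegree ≤ d + 2 := natDegree_C_mul_X_pow_le _ _
    have hB0coeff : B0.coeff (d + 2) = q / (d + 2) := by
      rw [hB0, coeff_C_mul_X_pow]
      simp
    -- the difference of `X ^ (d+2)`
    set D : ℚ[X] := X ^ (d + 2) - (X - C 1) ^ (d + 2) with hD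
    have hDdeg : D.natDegree ≤ d + 1 := by
      have h1 : D.natDegree ≤ d + 2 := by
        refine le_trans (natDegree_sub_le _ _) (max_le ?_ ?_)
        · simp
        · refine le_trans natDegree_pow_le ?_
          rw [natDegree_X_sub_C, mul_one]
      have h2 : D.coeff (d + 2) = 0 := by
        rw [hD, coeff_sub, coeff_X_pow, if_pos rfl, sub_eq_add_neg X, ← C_neg,
          coeff_X_add_C_pow]
        simp
      by_contra hcon
      have h3 : D.natDegree = d + 2 := by omega
      have h4 : D.leadingCoeff = 0 := by rw [leadingCoeff, h3, h2]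
      rw [leadingCoeff_eq_zero] at h4
      rw [h4] at h3
      simp at h3
    have hDcoeff : D.coeff (d + 1) = d + 2 := by
      rw [hD, coeff_sub, coeff_X_pow, if_neg (by omega), sub_eq_add_neg X, ← C_neg,
        coeff_X_add_C_pow]
      have : d + 2 - (d + 1) = 1 := by omega
      rw [this]
      have h5 : (d + 2).choose (d + 1) = d + 2 := Nat.choose_succ_self_right (d + 1)
      rw [h5]
      push_cast
      ring
    set R : ℚ[X] := Q - C (q / (d + 2)) * D with hR
    have hd2 : ((d : ℚ) + 2) ≠ 0 := by positivity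
    have hRdeg : R.natDegree ≤ d + 1 := by
      refine le_trans (natDegree_sub_le _ _) (max_le hQ ?_)
      exact le_trans (natDegree_C_mul_le _ _) hDdeg
    have hRcoeff : R.coeff (d + 1) = 0 := by
      rw [hR, coeff_sub, coeff_C_mul, hDcoeff, ← hq, div_mul_cancel₀ _ hd2]
      ring
    have hRdeg' : R.natDegree ≤ d := by
      by_contra hcon
      have h1 : R.natDegree = d + 1 := by omega
      have h2 : R.leadingCoeff = 0 := by
        rw [leadingCoeff, h1, hRcoeff]
      rw [leadingCoeff_eq_zero] at h2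
      rw [h2] at h1
      simp at h1
    obtain ⟨B1, h1, _, h3, h4⟩ := ih R (v - B0.eval (-1)) hRdeg'
    refine ⟨B0 + B1, ?_, ?_, ?_, ?_⟩
    · exact le_trans (natDegree_add_le _ _) (max_le hB0deg (by omega))
    · rw [coeff_add, hB0coeff, coeff_eq_zero_of_natDegree_lt (by omega : B1.natDegree < d + 1 + 1)]
      push_cast
      rw [add_zero]
      have : ((d : ℚ) + 1 + 1) = d + 2 := by ring
      rw [this, mul_div_cancel₀ _ hd2]
    · intro x
      have h5 := h3 x
      rw [hR, eval_sub, eval_mul, eval_C, hD] at h5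
      simp only [eval_sub, eval_pow, eval_X, eval_C] at h5
      rw [eval_add, eval_add, hB0]
      simp only [eval_mul, eval_C, eval_pow, eval_X]
      linarith
    · rw [eval_add, h4]
      ring

end Pool.Agent.Lib.MP_e74e95_nt
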