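import Mathlib
import Pool.Agent.Lib.MP_e74e95_nt.Poly

set_option autoImplicit false

open Polynomial

namespace Pool.Agent.Lib.MP_e74e95_nt

/-- the one-step recurrence on a residue class -/
structure Rec1 (φ γ : ℕ → ℕ → ℚ) : Prop where
  zero : ∀ k, γ k 0 = φ k 0
  base : ∀ s, γ 0 (s + 1) = φ 0 (s + 1) - γ 0 s
  step : ∀ k s, γ (k + 1) (s + 1) = φ (k + 1) (s + 1) - γ (k + 1) s - γ k s

/-- the recurrence satisfied when a new part `a` is allowed -/
structure RecA (a : ℕ) (f g : ℕ → ℕ → ℚ) : Prop where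
  small : ∀ k n, n < a → g k n = f k n
  base : ∀ n, g 0 (n + a) = f 0 (n + a) - g 0 n
  step : ∀ k n, g (k + 1) (n + a) = f (k + 1) (n + a) - g (k + 1) n - g k n

lemma RecA.rec1 {a : ℕ} {f g : ℕ → ℕ → ℚ} (h : RecA a f g) {r : ℕ} (hr : r < a) :
    Rec1 (fun k s => f k (r + a * s)) (fun k s => g k (r + a * s)) where
  zero := by
    intro k
    simpa using h.small k r hr
  base := by
    intro s
    have : r + a * (s + 1) = (r + a * s) + a := by ring
    simp only [this]
    exact h.base _
  step := by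
    intro k s
    have : r + a * (s + 1) = (r + a * s) + a := by ring
    simp only [this]
    exact h.step _ _

/-- Even stage: polynomial input. -/
lemma stage0 {φ γ : ℕ → ℕ → ℚ} (h : Rec1 φ γ) (F : ℕ → ℚ[X])
    (hφ : ∀ k (s : ℕ), φ k s = (F k).eval (s : ℚ)) (hF : ∀ k, (F k).natDegree ≤ k + 1) (k : ℕ) :
    ∃ A B : ℚ[X], (∀ s : ℕ, γ k s = A.eval (s : ℚ) + (-1) ^ s * B.eval (s : ℚ)) ∧
      A.natDegree ≤ k + 1 ∧ A.coeff (k + 1) = (F k).coeff (k + 1) / 2 ∧
      B.natDegree ≤ k ∧ (k.factorial : ℚ) * B.coeff k = (F 0).coeff 0 / 2 - (F 0).coeff 1 / 4 ∧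
      A.eval (-1) = B.eval (-1) := by
  induction k with
  | zero =>
    have hF0 := eq_X_add_C_of_natDegree_le_one (hF 0)
    set α := (F 0).coeff 0
    set β := (F 0).coeff 1
    refine ⟨C (β / 2) * X + C (α / 2 + β / 4), C (α / 2 - β / 4), ?_, natDegree_linear_le, ?_,
      by simp, by simp, ?_⟩
    · intro s
      induction s with
      | zero =>
        rw [h.zero, hφ, hF0]
        simp
      | succ s ih =>
        rw [h.base, ih, hφ, hF0]
        simp only [eval_add, eval_mul, eval_C, eval_X, pow_succ]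
        push_cast
        ring
    · simp
    · simp
      ring
  | succ k ih =>
    obtain ⟨A, B, h1, h2, _, h4, h5, h6⟩ := ih
    obtain ⟨A', a1, a2, a3⟩ := addEq (k + 2) (F (k + 1) - A.comp (X - C 1)) (by
      refine le_trans (natDegree_sub_le _ _) (max_le (hF (k + 1)) ?_)
      exact natDegree_comp_sub_one A _ (by omega))
    obtain ⟨B', b1, b2, b3, b4⟩ := subEq k (B.comp (X - C 1)) (A'.eval (-1))
      (natDegree_comp_sub_one B _ h4)
    refine ⟨A', B', ?_, a1, ?_, b1, ?_, b4.symm⟩
    · intro s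
      induction s with
      | zero =>
        rw [h.zero, hφ]
        have e1 := a3 0
        have e2 := b3 0
        simp only [eval_sub, eval_comp, eval_X, eval_C] at e1 e2
        norm_num at e1 e2 ⊢
        linarith
      | succ s ihs =>
        rw [h.step, ihs, h1, hφ]
        have e1 := a3 ((s : ℚ) + 1)
        have e2 := b3 ((s : ℚ) + 1)
        simp only [eval_sub, eval_comp, eval_X, eval_C, add_sub_cancel_right] at e1 e2
        push_cast
        have e1' : A'.eval ((s : ℚ) + 1) = (F (k + 1)).eval ((s : ℚ) + 1) - A.eval (s : ℚ)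
            - A'.eval (s : ℚ) := by linarith
        have e2' : B'.eval ((s : ℚ) + 1) = B.eval (s : ℚ) + B'.eval (s : ℚ) := by linarith
        rw [e1', e2', pow_succ]
        ring
    · rw [a2, coeff_sub, coeff_eq_zero_of_natDegree_lt
        (lt_of_le_of_lt (natDegree_comp_sub_one A _ h2) (by omega)), sub_zero]
    · rw [coeff_comp_sub_one B _ h4] at b2
      rw [← h5, ← b2, Nat.factorial_succ]
      push_cast
      ring

/-- Odd stage: polynomial plus alternating polynomial input. -/
lemma stage1 {φ γ : ℕ → ℕ → ℚ} (h : Rec1 φ γ) (F H : ℕ → ℚ[X])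
    (hφ : ∀ k (s : ℕ), φ k s = (F k).eval (s : ℚ) + (-1) ^ s * (H k).eval (s : ℚ))
    (hF : ∀ k, (F k).natDegree ≤ k + 1) (hH : ∀ k, (H k).natDegree ≤ k) (k : ℕ) :
    ∃ A B : ℚ[X], (∀ s : ℕ, γ k s = A.eval (s : ℚ) + (-1) ^ s * B.eval (s : ℚ)) ∧
      A.natDegree ≤ k + 1 ∧ A.coeff (k + 1) = (F k).coeff (k + 1) / 2 ∧
      B.natDegree ≤ k + 1 ∧ ((k + 1).factorial : ℚ) * B.coeff (k + 1) =
        ∑ i ∈ Finset.range (k + 1), (i.factorial : ℚ) * (H i).coeff i ∧
      A.eval (-1) = B.eval (-1) := by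
  induction k with
  | zero =>
    obtain ⟨A', a1, a2, a3⟩ := addEq 1 (F 0) (hF 0)
    obtain ⟨B', b1, b2, b3, b4⟩ := subEq 0 (H 0) (A'.eval (-1)) (hH 0)
    refine ⟨A', B', ?_, a1, a2, b1, ?_, b4.symm⟩
    · intro s
      induction s with
      | zero =>
        rw [h.zero, hφ]
        have e1 := a3 0
        have e2 := b3 0
        norm_num at e1 e2 ⊢
        linarith
      | succ s ihs =>
        rw [h.base, ihs, hφ]
        have e1 := a3 ((s : ℚ) + 1)
        have e2 := b3 ((s : ℚ) + 1)
        simp only [add_sub_cancel_right] at e1 e2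
        push_cast
        have e1' : A'.eval ((s : ℚ) + 1) = (F 0).eval ((s : ℚ) + 1) - A'.eval (s : ℚ) := by
          linarith
        have e2' : B'.eval ((s : ℚ) + 1) = (H 0).eval ((s : ℚ) + 1) + B'.eval (s : ℚ) := by
          linarith
        rw [e1', e2', pow_succ]
        ring
    · simpa using b2
  | succ k ih =>
    obtain ⟨A, B, h1, h2, _, h4, h5, h6⟩ := ih
    obtain ⟨A', a1, a2, a3⟩ := addEq (k + 2) (F (k + 1) - A.comp (X - C 1)) (by
      refine le_trans (natDegree_sub_le _ _) (max_le (hF (k + 1)) ?_)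
      exact natDegree_comp_sub_one A _ (by omega))
    obtain ⟨B', b1, b2, b3, b4⟩ := subEq (k + 1) (H (k + 1) + B.comp (X - C 1)) (A'.eval (-1)) (by
      refine le_trans (natDegree_add_le _ _) (max_le (hH (k + 1)) ?_)
      exact natDegree_comp_sub_one B _ h4)
    refine ⟨A', B', ?_, a1, ?_, b1, ?_, b4.symm⟩
    · intro s
      induction s with
      | zero =>
        rw [h.zero, hφ]
        have e1 := a3 0
        have e2 := b3 0
        simp only [eval_sub, eval_add, eval_comp, eval_X, eval_C] at e1 e2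
        norm_num at e1 e2 ⊢
        linarith
      | succ s ihs =>
        rw [h.step, ihs, h1, hφ]
        have e1 := a3 ((s : ℚ) + 1)
        have e2 := b3 ((s : ℚ) + 1)
        simp only [eval_sub, eval_add, eval_comp, eval_X, eval_C, add_sub_cancel_right] at e1 e2
        push_cast
        have e1' : A'.eval ((s : ℚ) + 1) = (F (k + 1)).eval ((s : ℚ) + 1) - A.eval (s : ℚ)
            - A'.eval (s : ℚ) := by linarith
        have e2' : B'.eval ((s : ℚ) + 1) = (H (k + 1)).eval ((s : ℚ) + 1) + B.eval (s : ℚ)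
            + B'.eval (s : ℚ) := by linarith
        rw [e1', e2', pow_succ]
        ring
    · rw [a2, coeff_sub, coeff_eq_zero_of_natDegree_lt
        (lt_of_le_of_lt (natDegree_comp_sub_one A _ h2) (by omega)), sub_zero]
    · rw [coeff_add, coeff_comp_sub_one B _ h4] at b2
      rw [Finset.sum_range_succ, ← h5]
      have : ((k + 1 + 1).factorial : ℚ) * B'.coeff (k + 1 + 1) =
          ((k + 1).factorial : ℚ) * ((((k + 1 : ℕ) : ℚ) + 1) * B'.coeff (k + 1 + 1)) := by
        rw [Nat.factorial_succ (k + 1)]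
        push_cast
        ring
      rw [this, b2]
      ring

/-- explicit values for `k = 0` in the even stage -/
lemma stage0_explicit {φ γ : ℕ → ℕ → ℚ} (h : Rec1 φ γ) (α β : ℚ)
    (hφ : ∀ s : ℕ, φ 0 s = α + β * s) (s : ℕ) :
    γ 0 s = β * s / 2 + α / 2 + β / 4 + (-1) ^ s * (α / 2 - β / 4) := by
  induction s with
  | zero =>
    rw [h.zero, hφ]
    simp
  | succ s ih =>
    rw [h.base, ih, hφ, pow_succ]
    push_cast
    ring

end Pool.Agent.Lib.MP_e74e95_nt
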