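import Mathlib
import Pool.Agent.Lib.MP_e74e95_nt.Stage

set_option autoImplicit false

open Polynomial

namespace Pool.Agent.Lib.MP_e74e95_nt

/-- the geometric sum -/
def geo (c : ℚ) (k : ℕ) : ℚ := ∑ i ∈ Finset.range (k + 1), c ^ i

lemma two_stage {a c : ℕ} (hc : Odd c) {f g g' : ℕ → ℕ → ℚ} (h1 : RecA a f g)
    (h2 : RecA (c * a) g g') {r : ℕ} (hr : r < a) (F : ℕ → ℚ[X])
    (hf : ∀ k (s : ℕ), f k (r + a * s) = (F k).eval (s : ℚ))
    (hF : ∀ k, (F k).natDegree ≤ k + 1)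
    (k : ℕ) {ρ : ℕ} (ε : ℕ) (hρ : ρ < c) :
    ∃ Q : ℚ[X], Q.natDegree ≤ k + 1 ∧
      Q.coeff (k + 1) = 2 ^ (k + 1) * ((F k).coeff (k + 1) * (c : ℚ) ^ (k + 1) / 4 +
        (-1) ^ (ρ + ε) * ((F 0).coeff 0 / 2 - (F 0).coeff 1 / 4) * geo c k /
          ((k + 1).factorial : ℚ)) ∧
      ∀ i : ℕ, g' k (r + a * (ρ + c * (2 * i + ε))) = Q.eval (i : ℚ) := by
  choose A B hAB hA1 hA2 hB1 hB2 _ using stage0 (h1.rec1 hr) F hf hF
  have hr' : r + a * ρ < c * a := by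
    have : a * (ρ + 1) ≤ c * a := by
      rw [mul_comm c a]
      exact Nat.mul_le_mul_left a hρ
    rw [mul_add, mul_one] at this
    omega
  obtain ⟨A', B', e1, e2, e3, e4, e5, _⟩ := stage1 (h2.rec1 hr')
    (fun k => (A k).comp (C (c : ℚ) * X + C (ρ : ℚ)))
    (fun k => C ((-1) ^ ρ) * (B k).comp (C (c : ℚ) * X + C (ρ : ℚ)))
    (by
      intro k s
      have h3 : r + a * ρ + c * a * s = r + a * (ρ + c * s) := by ring
      simp only [h3]
      rw [hAB k (ρ + c * s), pow_add, pow_mul, hc.neg_one_pow]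
      simp only [eval_comp, eval_add, eval_mul, eval_C, eval_X]
      push_cast
      rw [add_comm (ρ : ℚ) ((c : ℚ) * s)]
      ring)
    (fun k => natDegree_comp_linear _ _ (hA1 k) _ _)
    (fun k => le_trans (natDegree_C_mul_le _ _) (natDegree_comp_linear _ _ (hB1 k) _ _)) k
  refine ⟨A'.comp (C 2 * X + C (ε : ℚ)) + C ((-1) ^ ε) * B'.comp (C 2 * X + C (ε : ℚ)), ?_, ?_, ?_⟩
  · refine le_trans (natDegree_add_le _ _) (max_le (natDegree_comp_linear _ _ e2 _ _) ?_)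
    exact le_trans (natDegree_C_mul_le _ _) (natDegree_comp_linear _ _ e4 _ _)
  · have h4 : ((k + 1).factorial : ℚ) ≠ 0 := by positivity
    have h5 : B'.coeff (k + 1) = (-1) ^ ρ * ((F 0).coeff 0 / 2 - (F 0).coeff 1 / 4) * geo c k /
          ((k + 1).factorial : ℚ) := by
      rw [eq_div_iff h4, mul_comm, e5, geo, Finset.mul_sum]
      apply Finset.sum_congr rfl
      intro i _
      rw [coeff_C_mul, coeff_comp_linear _ _ (hB1 i)]
      rw [← hB2 i]
      ring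
    rw [coeff_add, coeff_C_mul, coeff_comp_linear _ _ e2, coeff_comp_linear _ _ e4, e3, h5,
      coeff_comp_linear _ _ (hA1 k), hA2, pow_add (-1 : ℚ) ρ ε]
    ring
  · intro i
    have h6 : r + a * (ρ + c * (2 * i + ε)) = r + a * ρ + c * a * (2 * i + ε) := by ring
    rw [h6, e1 (2 * i + ε), pow_add, pow_mul]
    simp only [eval_comp, eval_add, eval_mul, eval_C, eval_X]
    push_cast
    norm_num

lemma two_stage_zero {a c : ℕ} {f g g' : ℕ → ℕ → ℚ} (h1 : RecA a f g)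
    (h2 : RecA (c * a) g g') {r : ℕ} (hr : r < a) (α β : ℚ)
    (hf : ∀ s : ℕ, f 0 (r + a * s) = α + β * s) {ρ : ℕ} (hρ : ρ < c) :
    g' 0 (r + a * ρ) = β * ρ / 2 + α / 2 + β / 4 + (-1) ^ ρ * (α / 2 - β / 4) := by
  have hr' : r + a * ρ < c * a := by
    have : a * (ρ + 1) ≤ c * a := by
      rw [mul_comm c a]
      exact Nat.mul_le_mul_left a hρ
    rw [mul_add, mul_one] at this
    omega
  rw [h2.small 0 _ hr']
  exact stage0_explicit (h1.rec1 hr) α β hf ρ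

lemma two_stage_zero' {a c : ℕ} (hc : Odd c) {f g g' : ℕ → ℕ → ℚ} (h1 : RecA a f g)
    (h2 : RecA (c * a) g g') {r : ℕ} (hr : r < a) (α β : ℚ)
    (hf : ∀ s : ℕ, f 0 (r + a * s) = α + β * s) {ρ : ℕ} (hρ : ρ < c) :
    g' 0 (r + a * (ρ + c)) = β * c / 2 - (-1) ^ ρ * (α - β / 2) := by
  have h3 : r + a * (ρ + c) = (r + a * ρ) + c * a := by ring
  rw [h3, h2.base, two_stage_zero h1 h2 hr α β hf hρ, ← h3]
  rw [stage0_explicit (h1.rec1 hr) α β hf (ρ + c), pow_add, hc.neg_one_pow]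
  push_cast
  ring

end Pool.Agent.Lib.MP_e74e95_nt
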