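import Mathlib
import Pool.Agent.Lib.MP_e74e95_nt.TwoStage

set_option autoImplicit false

open Polynomial Filter

namespace Pool.Agent.Lib.MP_e74e95_nt

/-- the inductive hypothesis -/
def Hyp (P : ℕ) (T : ℕ → ℕ → ℚ) : Prop :=
  ∀ n < P, ∃ w : ℕ → ℚ, (0 < w 0 ∧ 0 ≤ T 0 n ∧ T 0 n ≤ 2 * w 0) ∧
    ∀ k, w 0 ≤ ((k + 1).factorial : ℚ) * w k ∧ ∃ Q : ℚ[X], Q.natDegree ≤ k + 1 ∧
      Q.coeff (k + 1) = w k ∧ ∀ j : ℕ, T k (n + P * j) = Q.eval (j : ℚ)

/-- eventual positivity -/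
def EvPos (t : ℕ → ℚ) : Prop := ∃ N : ℕ, ∀ n ≥ N, 0 < t n

lemma ev_pos_poly (Q : ℚ[X]) (d : ℕ) (hd : 0 < d) (hQ : Q.natDegree ≤ d) (hc : 0 < Q.coeff d) :
    EvPos (fun s => Q.eval (s : ℚ)) := by
  have h1 : Q.natDegree = d := by
    refine le_antisymm hQ (le_natDegree_of_ne_zero hc.ne')
  have h2 : 0 < Q.degree := natDegree_pos_iff_degree_pos.mp (by omega)
  have h3 : 0 ≤ Q.leadingCoeff := by
    rw [leadingCoeff, h1]
    exact hc.le
  have h4 := (tendsto_atTop_of_leadingCoeff_nonneg Q h2 h3).comp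
    (tendsto_natCast_atTop_atTop (R := ℚ))
  have h5 := h4.eventually_gt_atTop 0
  obtain ⟨N, hN⟩ := eventually_atTop.mp h5
  exact ⟨N, fun n hn => hN n hn⟩

lemma ev_pos_residues {P : ℕ} (hP : 0 < P) (t : ℕ → ℚ)
    (h : ∀ r < P, EvPos (fun j => t (r + P * j))) : EvPos t := by
  choose! M hM using h
  refine ⟨P * ∑ r ∈ Finset.range P, M r, ?_⟩
  intro n hn
  have h1 : n % P < P := Nat.mod_lt _ hP
  have h2 : ∑ r ∈ Finset.range P, M r ≤ n / P := by
    rw [Nat.le_div_iff_mul_le hP, mul_comm]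
    exact hn
  have h3 : M (n % P) ≤ ∑ r ∈ Finset.range P, M r :=
    Finset.single_le_sum (fun _ _ => Nat.zero_le _) (Finset.mem_range.mpr h1)
  have h4 := hM (n % P) h1 (n / P) (le_trans h3 h2)
  beta_reduce at h4
  rwa [Nat.mod_add_div] at h4

lemma Hyp.evPos {P : ℕ} (hP : 0 < P) {T : ℕ → ℕ → ℚ} (h : Hyp P T) (k : ℕ) : EvPos (T k) := by
  apply ev_pos_residues hP
  intro r hr
  obtain ⟨w, ⟨h1, _, _⟩, h2⟩ := h r hr
  obtain ⟨h3, Q, h4, h5, h6⟩ := h2 k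
  have h7 : 0 < w k := by
    have h8 : (0 : ℚ) < (k + 1).factorial := by positivity
    have h9 : 0 < ((k + 1).factorial : ℚ) * w k := lt_of_lt_of_le h1 h3
    exact (mul_pos_iff_of_pos_left h8).mp h9
  obtain ⟨N, hN⟩ := ev_pos_poly Q (k + 1) (Nat.succ_pos k) h4 (by rw [h5]; exact h7)
  exact ⟨N, fun n hn => by beta_reduce; rw [h6]; exact hN n hn⟩

/-- refinement of the modulus -/
lemma Hyp.refine {P l : ℕ} (hP : 0 < P) (hl : 2 ≤ l) {T : ℕ → ℕ → ℚ} (h : Hyp P T) {r : ℕ}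
    (hr : r < l * P) :
    ∃ F : ℕ → ℚ[X], (∀ k, (F k).natDegree ≤ k + 1) ∧
      (∀ k (s : ℕ), T k (r + l * P * s) = (F k).eval (s : ℚ)) ∧
      0 < (F 0).coeff 1 ∧ 0 ≤ (F 0).coeff 0 ∧ (F 0).coeff 0 ≤ 3 / 2 * (F 0).coeff 1 ∧
      ∀ k, (F 0).coeff 1 * (l : ℚ) ^ k ≤ ((k + 1).factorial : ℚ) * (F k).coeff (k + 1) := by
  have hr' : r % P < P := Nat.mod_lt _ hP
  obtain ⟨w, ⟨h1, h2, h3⟩, h4⟩ := h (r % P) hr'
  choose h5 Q h6 h7 h8 using h4
  have hlq : (2 : ℚ) ≤ l := by exact_mod_cast hl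
  have ht : r / P < l := by
    rw [Nat.div_lt_iff_lt_mul hP]
    exact hr
  have ht' : ((r / P : ℕ) : ℚ) + 1 ≤ l := by exact_mod_cast ht
  have ht0 : (0 : ℚ) ≤ ((r / P : ℕ) : ℚ) := by positivity
  have hcoef : ∀ k, ((Q k).comp (C (l : ℚ) * X + C ((r / P : ℕ) : ℚ))).coeff (k + 1)
      = w k * (l : ℚ) ^ (k + 1) := by
    intro k
    rw [coeff_comp_linear _ _ (h6 k), h7]
  have heval : ∀ k (s : ℕ), T k (r + l * P * s)
      = ((Q k).comp (C (l : ℚ) * X + C ((r / P : ℕ) : ℚ))).eval (s : ℚ) := by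
    intro k s
    have e1 : r + l * P * s = r % P + P * (l * s + r / P) := by
      conv_lhs => rw [← Nat.mod_add_div r P]
      ring
    rw [e1, h8]
    simp only [eval_comp, eval_add, eval_mul, eval_C, eval_X]
    push_cast
    rfl
  have h0 : ((Q 0).comp (C (l : ℚ) * X + C ((r / P : ℕ) : ℚ))).coeff 0
      = w 0 * ((r / P : ℕ) : ℚ) + T 0 (r % P) := by
    rw [coeff_zero_eq_eval_zero]
    simp only [eval_comp, eval_add, eval_mul, eval_C, eval_X, mul_zero, zero_add]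
    have e2 := h8 0 0
    rw [mul_zero, add_zero] at e2
    rw [e2]
    have e3 := eq_X_add_C_of_natDegree_le_one (h6 0)
    rw [e3]
    have e4 := h7 0
    simp only [zero_add] at e4
    simp [e4]
  refine ⟨fun k => (Q k).comp (C (l : ℚ) * X + C ((r / P : ℕ) : ℚ)),
    fun k => natDegree_comp_linear _ _ (h6 k) _ _, heval, ?_, ?_, ?_, ?_⟩
  · have := hcoef 0
    simp only [zero_add, pow_one] at this
    simp only [this]
    positivity
  · simp only [h0]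
    positivity
  · have := hcoef 0
    simp only [zero_add, pow_one] at this
    simp only [h0, this]
    have e5 : w 0 * ((r / P : ℕ) : ℚ) ≤ w 0 * (l - 1) :=
      mul_le_mul_of_nonneg_left (by linarith) h1.le
    have e6 : w 0 * 2 ≤ w 0 * l := mul_le_mul_of_nonneg_left hlq h1.le
    nlinarith
  · intro k
    have e7 := hcoef 0
    simp only [zero_add, pow_one] at e7
    simp only [hcoef k, e7]
    have e8 : w 0 * (l : ℚ) ^ (k + 1) ≤ ((k + 1).factorial : ℚ) * w k * (l : ℚ) ^ (k + 1) :=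
      mul_le_mul_of_nonneg_right (h5 k) (by positivity)
    calc w 0 * (l : ℚ) * (l : ℚ) ^ k = w 0 * (l : ℚ) ^ (k + 1) := by ring
      _ ≤ _ := e8
      _ = _ := by ring

lemma geo_ge_one {c : ℚ} (hc : 0 ≤ c) (k : ℕ) : 1 ≤ geo c k := by
  unfold geo
  rw [Finset.sum_range_succ']
  simp only [pow_zero]
  have : 0 ≤ ∑ i ∈ Finset.range k, c ^ (i + 1) := Finset.sum_nonneg (fun i _ => by positivity)
  linarith

lemma geo_le {c l : ℚ} (hc : 1 ≤ c) (hl : 2 ≤ l) (k : ℕ) : geo c k ≤ (l * c) ^ k := by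
  have h1 : geo c k ≤ ((k : ℚ) + 1) * c ^ k := by
    unfold geo
    calc ∑ i ∈ Finset.range (k + 1), c ^ i ≤ ∑ _i ∈ Finset.range (k + 1), c ^ k := by
          apply Finset.sum_le_sum
          intro i hi
          rw [Finset.mem_range] at hi
          exact pow_le_pow_right₀ hc (by omega)
      _ = ((k : ℚ) + 1) * c ^ k := by
          rw [Finset.sum_const, Finset.card_range, nsmul_eq_mul]
          push_cast
          ring
  have h2 : ((k : ℚ) + 1) ≤ 2 ^ k := by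
    have : k + 1 ≤ 2 ^ k := Nat.lt_two_pow_self
    exact_mod_cast this
  have h3 : (2 : ℚ) ^ k ≤ l ^ k := pow_le_pow_left₀ (by norm_num) hl k
  rw [mul_pow]
  calc geo c k ≤ ((k : ℚ) + 1) * c ^ k := h1
    _ ≤ l ^ k * c ^ k := mul_le_mul_of_nonneg_right (h2.trans h3) (by positivity)

lemma numeric {β z c l y : ℚ} {k : ℕ} (hβ : 0 < β) (hz : -(β / 2) ≤ z)
    (hc : 3 ≤ c) (hl : 2 ≤ l) (hy : β * l ^ k ≤ y) :
    2 * (β * c / 4 + z) ≤ 2 ^ (k + 1) * (y * c ^ (k + 1) / 4 + z * geo c k) := by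
  have hg1 : 1 ≤ geo c k := geo_ge_one (by linarith) k
  have hg2 : geo c k ≤ (l * c) ^ k := geo_le (by linarith) hl k
  set L := (l * c) ^ k with hL
  have hyc : β * c * L ≤ y * c ^ (k + 1) := by
    have : β * l ^ k * c ^ (k + 1) ≤ y * c ^ (k + 1) :=
      mul_le_mul_of_nonneg_right hy (by positivity)
    rw [hL, mul_pow]
    calc β * c * (l ^ k * c ^ k) = β * l ^ k * c ^ (k + 1) := by ring
      _ ≤ _ := this
  have hbc : β * 3 ≤ β * c := mul_le_mul_of_nonneg_left hc hβ.le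
  have hpos : 0 ≤ β * c / 4 + z := by linarith
  have hkey : β * c / 4 + z ≤ β * c * L / 4 + z * geo c k := by
    rcases le_or_gt 0 z with h | h
    · have e1 : z * 1 ≤ z * geo c k := mul_le_mul_of_nonneg_left hg1 h
      have e2 : β * c * 1 ≤ β * c * L :=
        mul_le_mul_of_nonneg_left (hg1.trans hg2) (by nlinarith)
      linarith
    · have e1 : z * L ≤ z * geo c k := mul_le_mul_of_nonpos_left hg2 h.le
      have e2 : (β * c / 4 + z) * 1 ≤ (β * c / 4 + z) * L :=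
        mul_le_mul_of_nonneg_left (hg1.trans hg2) hpos
      nlinarith
  have h2 : (2 : ℚ) ≤ 2 ^ (k + 1) := by
    have : (1 : ℚ) ≤ 2 ^ k := one_le_pow₀ (by norm_num)
    rw [pow_succ]
    linarith
  calc 2 * (β * c / 4 + z) ≤ 2 ^ (k + 1) * (β * c / 4 + z) :=
        mul_le_mul_of_nonneg_right h2 hpos
    _ ≤ 2 ^ (k + 1) * (y * c ^ (k + 1) / 4 + z * geo c k) := by
        apply mul_le_mul_of_nonneg_left _ (by positivity)
        linarith

end Pool.Agent.Lib.MP_e74e95_nt
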