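import Mathlib
import Pool.Agent.Lib.MP_e74e95_nt.Defs

set_option autoImplicit false

namespace Pool.Agent.Lib.MP_e74e95_nt

/-- partitions of `n` with parts in `A` -/
def PA (A : Finset ℕ) (n : ℕ) : Finset (Nat.Partition n) :=
  (Finset.univ : Finset (Nat.Partition n)).filter (fun P => ∀ a ∈ P.parts, a ∈ A)

/-- signed weighted count -/
def Sw (w : ℕ → ℤ) (A : Finset ℕ) (n : ℕ) : ℤ :=
  ∑ P ∈ PA A n, (-1) ^ (Multiset.card P.parts) * w (Multiset.card P.parts)

lemma card_parts_le {n : ℕ} (P : Nat.Partition n) : Multiset.card P.parts ≤ n := by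
  have h1 : Multiset.card P.parts • 1 ≤ P.parts.sum :=
    Multiset.card_nsmul_le_sum (fun x hx => P.parts_pos hx)
  rw [P.parts_sum] at h1
  simpa using h1

lemma S_eq_Sw (A : Finset ℕ) (k n : ℕ) : S A k n = Sw (fun i => (i : ℤ) ^ k) A n := by
  unfold S Sw
  rw [← Finset.sum_fiberwise_of_maps_to (s := PA A n) (t := Finset.range (n + 1))
    (g := fun P => Multiset.card P.parts)
    (fun P _ => Finset.mem_range.mpr (Nat.lt_succ_of_le (card_parts_le P)))]
  apply Finset.sum_congr rfl
  intro i _
  have h1 : ∀ P ∈ (PA A n).filter (fun P => Multiset.card P.parts = i),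
      (-1 : ℤ) ^ (Multiset.card P.parts) * ((Multiset.card P.parts : ℕ) : ℤ) ^ k
        = (-1) ^ i * (i : ℤ) ^ k := by
    intro P hP
    rw [(Finset.mem_filter.mp hP).2]
  rw [Finset.sum_congr rfl h1, Finset.sum_const, nsmul_eq_mul]
  have h2 : cA A i n = ((PA A n).filter (fun P => Multiset.card P.parts = i)).card := by
    unfold cA PA
    rw [Finset.filter_filter]
  rw [h2]
  ring

lemma PA_filter_not_mem {A : Finset ℕ} {a n : ℕ} (ha : a ∉ A) :
    (PA (insert a A) n).filter (fun P => a ∉ P.parts) = PA A n := by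
  ext P
  simp only [PA, Finset.mem_filter, Finset.mem_univ, true_and, Finset.mem_insert]
  constructor
  · rintro ⟨h1, h2⟩ b hb
    rcases h1 b hb with h | h
    · exact absurd (h ▸ hb) h2
    · exact h
  · intro h
    refine ⟨fun b hb => Or.inr (h b hb), fun hb => ha (h a hb)⟩

/-- add a part -/
def addPart {n : ℕ} (a : ℕ) (ha : 0 < a) (han : a ≤ n) (P : Nat.Partition (n - a)) :
    Nat.Partition n where
  parts := a ::ₘ P.parts
  parts_pos := by
    intro i hi
    rcases Multiset.mem_cons.mp hi with h | h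
    · exact h ▸ ha
    · exact P.parts_pos h
  parts_sum := by
    rw [Multiset.sum_cons, P.parts_sum]
    omega

/-- remove a part -/
def removePart {n : ℕ} (a : ℕ) (P : Nat.Partition n) (h : a ∈ P.parts) :
    Nat.Partition (n - a) where
  parts := P.parts.erase a
  parts_pos := by
    intro i hi
    exact P.parts_pos (Multiset.mem_of_mem_erase hi)
  parts_sum := by
    have h1 := Multiset.sum_erase h
    rw [P.parts_sum] at h1
    omega

lemma Sw_filter_mem (w : ℕ → ℤ) {A : Finset ℕ} {a n : ℕ} (ha : 0 < a) (haA : a ∈ A)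
    (han : a ≤ n) :
    ∑ P ∈ (PA A n).filter (fun P => a ∈ P.parts),
      (-1) ^ (Multiset.card P.parts) * w (Multiset.card P.parts)
      = - Sw (fun i => w (i + 1)) A (n - a) := by
  unfold Sw
  rw [← Finset.sum_neg_distrib]
  symm
  apply Finset.sum_bij (fun P _ => addPart a ha han P)
  · intro P hP
    simp only [PA, Finset.mem_filter, Finset.mem_univ, true_and, addPart] at hP ⊢
    refine ⟨?_, Multiset.mem_cons_self _ _⟩
    intro b hb
    rcases Multiset.mem_cons.mp hb with h | h
    · exact h ▸ haA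
    · exact hP b h
  · intro P _ Q _ h
    have h1 : (addPart a ha han P).parts = (addPart a ha han Q).parts := by rw [h]
    simp only [addPart] at h1
    have h2 := (Multiset.cons_inj_right a).mp h1
    exact Nat.Partition.ext h2
  · intro P hP
    have hP' := Finset.mem_filter.mp hP
    refine ⟨removePart a P hP'.2, ?_, ?_⟩
    · simp only [PA, Finset.mem_filter, Finset.mem_univ, true_and, removePart]
      intro b hb
      have := (Finset.mem_filter.mp hP'.1).2
      exact this b (Multiset.mem_of_mem_erase hb)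
    · apply Nat.Partition.ext
      simp only [addPart, removePart]
      exact Multiset.cons_erase hP'.2
  · intro P _
    simp only [addPart, Multiset.card_cons]
    ring

lemma Sw_insert (w : ℕ → ℤ) {A : Finset ℕ} {a n : ℕ} (ha : 0 < a) (haA : a ∉ A) (han : a ≤ n) :
    Sw w (insert a A) n = Sw w A n - Sw (fun i => w (i + 1)) (insert a A) (n - a) := by
  have h := Finset.sum_filter_add_sum_filter_not (PA (insert a A) n)
    (fun P => a ∈ P.parts)
    (fun P => (-1) ^ (Multiset.card P.parts) * w (Multiset.card P.parts))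
  rw [Sw_filter_mem w ha (Finset.mem_insert_self a A) han, PA_filter_not_mem haA] at h
  unfold Sw at h ⊢
  linarith

lemma Sw_insert_lt (w : ℕ → ℤ) {A : Finset ℕ} {a n : ℕ} (haA : a ∉ A) (han : n < a) :
    Sw w (insert a A) n = Sw w A n := by
  have h1 : PA (insert a A) n = PA A n := by
    rw [← PA_filter_not_mem haA]
    symm
    apply Finset.filter_true_of_mem
    intro P _ hP
    have h2 : a ≤ P.parts.sum := Multiset.le_sum_of_mem hP
    rw [P.parts_sum] at h2
    omega
  unfold Sw
  rw [h1]

/-- signed binomially weighted counts -/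
def G (A : Finset ℕ) (k n : ℕ) : ℤ := Sw (fun i => (i.choose k : ℤ)) A n

lemma G_insert_lt {A : Finset ℕ} {a n : ℕ} (k : ℕ) (haA : a ∉ A) (han : n < a) :
    G (insert a A) k n = G A k n := Sw_insert_lt _ haA han

lemma G_insert_zero {A : Finset ℕ} {a : ℕ} (n : ℕ) (ha : 0 < a) (haA : a ∉ A) :
    G (insert a A) 0 (n + a) = G A 0 (n + a) - G (insert a A) 0 n := by
  unfold G
  rw [Sw_insert _ ha haA (Nat.le_add_left a n), Nat.add_sub_cancel]
  simp

lemma Sw_add (w v : ℕ → ℤ) (A : Finset ℕ) (n : ℕ) :
    Sw (fun i => w i + v i) A n = Sw w A n + Sw v A n := by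
  unfold Sw
  rw [← Finset.sum_add_distrib]
  exact Finset.sum_congr rfl (fun _ _ => by ring)

lemma Sw_mul (c : ℤ) (w : ℕ → ℤ) (A : Finset ℕ) (n : ℕ) :
    Sw (fun i => c * w i) A n = c * Sw w A n := by
  unfold Sw
  rw [Finset.mul_sum]
  exact Finset.sum_congr rfl (fun _ _ => by ring)

lemma G_insert_succ {A : Finset ℕ} {a : ℕ} (k n : ℕ) (ha : 0 < a) (haA : a ∉ A) :
    G (insert a A) (k + 1) (n + a)
      = G A (k + 1) (n + a) - G (insert a A) (k + 1) n - G (insert a A) k n := by
  unfold G
  rw [Sw_insert _ ha haA (Nat.le_add_left a n), Nat.add_sub_cancel]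
  have : (fun i : ℕ => (((i + 1).choose (k + 1) : ℕ) : ℤ))
      = fun i : ℕ => ((i.choose (k + 1) : ℕ) : ℤ) + ((i.choose k : ℕ) : ℤ) := by
    funext i
    rw [Nat.choose_succ_succ]
    push_cast
    ring
  rw [this, Sw_add]
  ring

lemma U_succ {m : ℕ} : U (m + 1) = insert (m + 1).factorial (U m) := by
  unfold U
  rw [← Finset.insert_Icc_right_eq_Icc_add_one (by omega), Finset.image_insert]

lemma factorial_not_mem_U {m : ℕ} : (m + 1).factorial ∉ U m := by
  unfold U
  rw [Finset.mem_image]
  rintro ⟨j, hj, h⟩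
  rw [Finset.mem_Icc] at hj
  have h1 : j.factorial < (m + 1).factorial := Nat.factorial_lt_of_lt (by omega) (by omega)
  omega

lemma PA_empty_zero : PA ∅ 0 = Finset.univ := by
  unfold PA
  apply Finset.filter_true_of_mem
  intro P _ a ha
  have h1 := P.parts_pos ha
  have h2 : a ≤ P.parts.sum := Multiset.le_sum_of_mem ha
  rw [P.parts_sum] at h2
  omega

lemma G_empty_zero (k : ℕ) : G ∅ k 0 = (Nat.choose 0 k : ℤ) := by
  unfold G Sw
  rw [PA_empty_zero]
  have : ∀ P : Nat.Partition 0, Multiset.card P.parts = 0 := by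
    intro P
    have := card_parts_le P
    omega
  simp only [this]
  have hc : (Finset.univ : Finset (Nat.Partition 0)).card = 1 := by
    rw [Finset.card_univ]
    exact Fintype.card_unique
  rw [Finset.sum_const, hc]
  simp

lemma G_empty_succ (k n : ℕ) : G ∅ k (n + 1) = 0 := by
  unfold G Sw
  have : PA ∅ (n + 1) = ∅ := by
    unfold PA
    apply Finset.filter_eq_empty_iff.mpr
    intro P _ h
    have h1 : P.parts = 0 := by
      apply Multiset.eq_zero_of_forall_notMem
      intro a ha
      exact absurd (h a ha) (Finset.notMem_empty a)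
    have h2 := P.parts_sum
    rw [h1] at h2
    simp at h2
  rw [this, Finset.sum_empty]

lemma U_one : U 1 = insert 1 ∅ := by
  unfold U
  simp

lemma G_one (k n : ℕ) : G (U 1) k n = (-1) ^ n * (n.choose k : ℤ) := by
  rw [U_one]
  induction n generalizing k with
  | zero =>
    rw [G_insert_lt k (Finset.notMem_empty 1) (by norm_num), G_empty_zero]
    simp
  | succ n ih =>
    cases k with
    | zero =>
      rw [G_insert_zero n one_pos (Finset.notMem_empty 1), G_empty_succ, ih]
      simp [pow_succ]
    | succ k =>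
      rw [G_insert_succ k n one_pos (Finset.notMem_empty 1), G_empty_succ, ih, ih,
        Nat.choose_succ_succ]
      push_cast
      ring

end Pool.Agent.Lib.MP_e74e95_nt
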