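import Mathlib
import Pool.Agent.Lib.MP_e74e95_nt.Hyp

set_option autoImplicit false

open Polynomial Filter

namespace Pool.Agent.Lib.MP_e74e95_nt

/-- the intermediate stage is eventually positive -/
lemma mid_evPos {P l : ℕ} (hP : 0 < P) (hl : 2 ≤ l) {T T1 : ℕ → ℕ → ℚ} (h : Hyp P T)
    (h1 : RecA (l * P) T T1) (k : ℕ) : EvPos (T1 k) := by
  have hlP : 0 < l * P := Nat.mul_pos (by omega) hP
  apply ev_pos_residues hlP
  intro r hr
  obtain ⟨F, hF1, hF2, hF3, _, _, hF6⟩ := h.refine hP hl hr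
  obtain ⟨A, B, e1, e2, e3, e4, _, _⟩ := stage0 (h1.rec1 hr) F hF2 hF1 k
  have hpos : 0 < (F k).coeff (k + 1) := by
    have h8 : (0 : ℚ) < (k + 1).factorial := by positivity
    have h9 : 0 < (F 0).coeff 1 * (l : ℚ) ^ k := by positivity
    exact (mul_pos_iff_of_pos_left h8).mp (lt_of_lt_of_le h9 (hF6 k))
  have hB0 : B.coeff (k + 1) = 0 := coeff_eq_zero_of_natDegree_lt (by omega)
  obtain ⟨N1, hN1⟩ := ev_pos_poly (A + B) (k + 1) (Nat.succ_pos k)
    (le_trans (natDegree_add_le _ _) (max_le e2 (by omega)))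
    (by rw [coeff_add, e3, hB0]; linarith)
  obtain ⟨N2, hN2⟩ := ev_pos_poly (A - B) (k + 1) (Nat.succ_pos k)
    (le_trans (natDegree_sub_le _ _) (max_le e2 (by omega)))
    (by rw [coeff_sub, e3, hB0]; linarith)
  refine ⟨max N1 N2, ?_⟩
  intro s hs
  have h5 := hN1 s (le_trans (le_max_left _ _) hs)
  have h6 := hN2 s (le_trans (le_max_right _ _) hs)
  have h7 := e1 s
  beta_reduce at h5 h6 h7 ⊢
  rw [eval_add] at h5
  rw [eval_sub] at h6
  rw [h7]
  rcases neg_one_pow_eq_or ℚ s with h | h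
  · rw [h]
    linarith
  · rw [h]
    linarith

lemma hyp_step {P l c : ℕ} (hP : 0 < P) (hl : 2 ≤ l) (hc : Odd c) (hc3 : 3 ≤ c)
    {T T1 T2 : ℕ → ℕ → ℚ} (h : Hyp P T)
    (h1 : RecA (l * P) T T1) (h2 : RecA (c * (l * P)) T1 T2) : Hyp (2 * (c * (l * P))) T2 := by
  intro n hn
  have hlP : 0 < l * P := Nat.mul_pos (by omega) hP
  set a := l * P with ha
  have hr : n % a < a := Nat.mod_lt _ hlP
  set r := n % a with hrdef
  set σ := n / a with hσ
  have hn' : n = r + a * σ := (Nat.mod_add_div n a).symm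
  have hσlt : σ < 2 * c := by
    rw [hσ, Nat.div_lt_iff_lt_mul hlP]
    calc n < _ := hn
      _ = _ := by ring
  have hc0 : 0 < c := by omega
  have hρ : σ % c < c := Nat.mod_lt _ hc0
  set ρ := σ % c with hρdef
  set ε := σ / c with hε
  have hσ' : σ = ρ + c * ε := (Nat.mod_add_div σ c).symm
  have hεlt : ε < 2 := by
    rw [hε, Nat.div_lt_iff_lt_mul hc0]
    exact hσlt
  obtain ⟨F, hF1, hF2, hF3, hF4, hF5, hF6⟩ := h.refine hP hl hr
  set α := (F 0).coeff 0 with hα
  set β := (F 0).coeff 1 with hβ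
  have hf0 : ∀ s : ℕ, T 0 (r + a * s) = α + β * s := by
    intro s
    rw [hF2, eq_X_add_C_of_natDegree_le_one (hF1 0)]
    simp only [eval_add, eval_mul, eval_C, eval_X]
    rw [← hα, ← hβ]
    ring
  have hcq : (3 : ℚ) ≤ c := by exact_mod_cast hc3
  have hlq : (2 : ℚ) ≤ l := by exact_mod_cast hl
  have hbc : β * 3 ≤ β * c := mul_le_mul_of_nonneg_left hcq hF3.le
  set x : ℚ := (-1) ^ (ρ + ε) with hx
  have hx1 : x = 1 ∨ x = -1 := neg_one_pow_eq_or ℚ _
  set κ : ℚ := α / 2 - β / 4 with hκ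
  have hz : -(β / 2) ≤ x * κ := by
    rcases hx1 with h | h <;> rw [h] <;> linarith
  have hw0 : 2 ^ (0 + 1) * ((F 0).coeff (0 + 1) * (c : ℚ) ^ (0 + 1) / 4 +
        x * κ * geo c 0 / ((0 + 1).factorial : ℚ)) = 2 * (β * c / 4 + x * κ) := by
    simp [geo, ← hβ]
  refine ⟨fun k => 2 ^ (k + 1) * ((F k).coeff (k + 1) * (c : ℚ) ^ (k + 1) / 4 +
        x * κ * geo c k / ((k + 1).factorial : ℚ)), ?_, ?_⟩
  · beta_reduce
    rw [hw0]
    have hwpos : 0 < 2 * (β * c / 4 + x * κ) := by linarith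
    refine ⟨hwpos, ?_⟩
    have hcase : ε = 0 ∨ ε = 1 := Nat.le_one_iff_eq_zero_or_eq_one.mp (Nat.lt_succ_iff.mp hεlt)
    rcases hcase with hε0 | hε1
    · have hT : T2 0 n = β * ρ / 2 + α / 2 + β / 4 + (-1) ^ ρ * (α / 2 - β / 4) := by
        rw [hn', hσ', hε0, mul_zero, add_zero]
        exact two_stage_zero h1 h2 hr α β hf0 hρ
      have hxρ : x = (-1) ^ ρ := by rw [hx, hε0, add_zero]
      have hρ0 : (0 : ℚ) ≤ (ρ : ℚ) := by positivity
      rcases Nat.even_or_odd ρ with hev | hodd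
      · have e1 : ((-1 : ℚ)) ^ ρ = 1 := hev.neg_one_pow
        rw [e1] at hT hxρ
        rw [hT, hxρ, hκ]
        have e2 : ρ + 1 ≤ c := hρ
        have e3 : (ρ : ℚ) + 1 ≤ c := by exact_mod_cast e2
        have e4 : β * ρ ≤ β * (c - 1) := mul_le_mul_of_nonneg_left (by linarith) hF3.le
        have e5 : 0 ≤ β * ρ := mul_nonneg hF3.le hρ0
        constructor
        · linarith
        · linarith
      · have e1 : ((-1 : ℚ)) ^ ρ = -1 := hodd.neg_one_pow
        rw [e1] at hT hxρ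
        rw [hT, hxρ, hκ]
        have e2 : ρ + 2 ≤ c := by
          rcases hodd with ⟨u, hu⟩
          rcases hc with ⟨v, hv⟩
          omega
        have e3 : (ρ : ℚ) + 2 ≤ c := by exact_mod_cast e2
        have e4 : β * ρ ≤ β * (c - 2) := mul_le_mul_of_nonneg_left (by linarith) hF3.le
        have e5 : 0 ≤ β * ρ := mul_nonneg hF3.le hρ0
        constructor
        · linarith
        · linarith
    · have hT : T2 0 n = β * c / 2 - (-1) ^ ρ * (α - β / 2) := by
        rw [hn', hσ', hε1, mul_one]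
        exact two_stage_zero' hc h1 h2 hr α β hf0 hρ
      have hxρ : x = -((-1) ^ ρ) := by rw [hx, hε1, pow_succ]; ring
      have hTw : T2 0 n = 2 * (β * c / 4 + x * κ) := by
        rw [hT, hxρ, hκ]
        ring
      rw [hTw]
      constructor
      · linarith
      · linarith
  · intro k
    beta_reduce
    rw [hw0]
    constructor
    · have h8 : ((k + 1).factorial : ℚ) ≠ 0 := by positivity
      have h9 := numeric (k := k) hF3 hz hcq hlq (hF6 k)
      refine le_trans h9 (le_of_eq ?_)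
      field_simp
    · obtain ⟨Q, q1, q2, q3⟩ := two_stage hc h1 h2 hr F hF2 hF1 k ε hρ
      refine ⟨Q, q1, q2, ?_⟩
      intro j
      rw [← q3 j]
      congr 1
      rw [hn', hσ']
      ring

end Pool.Agent.Lib.MP_e74e95_nt
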