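import Mathlib
import Pool.Agent.Lib.MP_e74e95_nt.Step
import Pool.Agent.Lib.MP_e74e95_nt.Recurrence

set_option autoImplicit false

open Polynomial Filter

namespace Pool.Agent.Lib.MP_e74e95_nt

/-- signed counts normalised by the expected sign pattern -/
def T (m k n : ℕ) : ℚ := (-1) ^ ((n + 1) / 2) * (G (U m) k n : ℚ)

lemma recA_G (m : ℕ) :
    RecA (m + 1).factorial (fun k n => (G (U m) k n : ℚ)) (fun k n => (G (U (m + 1)) k n : ℚ)) where
  small := by
    intro k n hn
    simp only [U_succ]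
    rw [G_insert_lt k factorial_not_mem_U hn]
  base := by
    intro n
    simp only [U_succ]
    rw [G_insert_zero n (Nat.factorial_pos _) factorial_not_mem_U]
    push_cast
    ring
  step := by
    intro k n
    simp only [U_succ]
    rw [G_insert_succ k n (Nat.factorial_pos _) factorial_not_mem_U]
    push_cast
    ring

lemma four_dvd_factorial {m : ℕ} (hm : 4 ≤ m) : 4 ∣ m.factorial :=
  Nat.dvd_factorial (by norm_num) hm

lemma pattern_add {n a : ℕ} (ha : 4 ∣ a) : (-1 : ℚ) ^ ((n + a + 1) / 2) = (-1) ^ ((n + 1) / 2) := by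
  obtain ⟨b, rfl⟩ := ha
  have : (n + 4 * b + 1) / 2 = (n + 1) / 2 + 2 * b := by omega
  rw [this, pow_add, pow_mul]
  norm_num

lemma recA_T {m : ℕ} (hm : 3 ≤ m) : RecA (m + 1).factorial (T m) (T (m + 1)) where
  small := by
    intro k n hn
    have := (recA_G m).small k n hn
    unfold T
    rw [this]
  base := by
    intro n
    have := (recA_G m).base n
    unfold T
    rw [this, pattern_add (four_dvd_factorial (by omega))]
    ring
  step := by
    intro k n
    have := (recA_G m).step k n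
    unfold T
    rw [this, pattern_add (four_dvd_factorial (by omega))]
    ring

/-- the binomial polynomial -/
noncomputable def binomPoly (k : ℕ) : ℚ[X] := C (1 / (k.factorial : ℚ)) * descPochhammer ℚ k

lemma binomPoly_eval (k n : ℕ) : (binomPoly k).eval (n : ℚ) = (n.choose k : ℚ) := by
  unfold binomPoly
  rw [eval_mul, eval_C, descPochhammer_eval_eq_descFactorial,
    Nat.descFactorial_eq_factorial_mul_choose]
  push_cast
  have : (k.factorial : ℚ) ≠ 0 := by positivity
  field_simp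

lemma binomPoly_natDegree (k : ℕ) : (binomPoly k).natDegree ≤ k := by
  unfold binomPoly
  refine le_trans (natDegree_C_mul_le _ _) ?_
  rw [descPochhammer_natDegree]

lemma binomPoly_zero : binomPoly 0 = 1 := by
  unfold binomPoly
  simp

lemma G_one_poly {r : ℕ} (k s : ℕ) :
    (G (U 1) k (r + 2 * s) : ℚ)
      = (C ((-1) ^ r) * (binomPoly k).comp (C 2 * X + C (r : ℚ))).eval (s : ℚ) := by
  rw [G_one]
  simp only [eval_comp, eval_add, eval_mul, eval_C, eval_X]
  have h1 : (2 : ℚ) * (s : ℚ) + (r : ℚ) = ((r + 2 * s : ℕ) : ℚ) := by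
    push_cast
    ring
  rw [h1, binomPoly_eval, pow_add, pow_mul]
  push_cast
  norm_num

lemma hyp_base : Hyp 12 (T 3) := by
  intro n hn
  set r := n % 2 with hr
  set σ := n / 2 with hσ
  have hn' : n = r + 2 * σ := (Nat.mod_add_div n 2).symm
  set ρ := σ % 3 with hρ
  set ε := σ / 3 with hε
  have hσ' : σ = ρ + 3 * ε := (Nat.mod_add_div σ 3).symm
  have hr2 : r < 2 := Nat.mod_lt _ (by norm_num)
  have hρ3 : ρ < 3 := Nat.mod_lt _ (by norm_num)
  have hε2 : ε < 2 := by omega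
  clear_value r σ ρ ε
  have hpat : ∀ j, (-1 : ℚ) ^ ((n + 12 * j + 1) / 2) = (-1) ^ (ρ + ε) * (-1) ^ r := by
    intro j
    rw [pattern_add (Dvd.dvd.mul_right (by norm_num) j)]
    have : (n + 1) / 2 = ρ + ε + r + 2 * ε := by omega
    rw [this, pow_add _ (ρ + ε + r), pow_mul, pow_add _ (ρ + ε) r]
    norm_num
  have h1 : RecA 2 (fun k n => (G (U 1) k n : ℚ)) (fun k n => (G (U 2) k n : ℚ)) := recA_G 1
  have h2 : RecA (3 * 2) (fun k n => (G (U 2) k n : ℚ)) (fun k n => (G (U 3) k n : ℚ)) := recA_G 2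
  set F : ℕ → ℚ[X] := fun k => C ((-1) ^ r) * (binomPoly k).comp (C 2 * X + C (r : ℚ)) with hF
  have hFdeg : ∀ k, (F k).natDegree ≤ k := fun k =>
    le_trans (natDegree_C_mul_le _ _) (natDegree_comp_linear _ _ (binomPoly_natDegree k) _ _)
  have hFeval : ∀ k (s : ℕ), (fun k n => (G (U 1) k n : ℚ)) k (r + 2 * s)
      = (F k).eval (s : ℚ) := fun k s => G_one_poly k s
  have hF0 : F 0 = C ((-1) ^ r) := by
    simp only [hF]
    rw [binomPoly_zero]
    simp
  have hrr : ((-1 : ℚ)) ^ r * (-1) ^ r = 1 := by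
    rw [← mul_pow]
    norm_num
  have hρρ : ((-1 : ℚ)) ^ (ρ + ε) * (-1) ^ (ρ + ε) = 1 := by
    rw [← mul_pow]
    norm_num
  refine ⟨fun k => 2 ^ k * geo 3 k / ((k + 1).factorial : ℚ), ?_, ?_⟩
  · beta_reduce
    have hw0 : (2 : ℚ) ^ 0 * geo 3 0 / ((0 + 1).factorial : ℚ) = 1 := by
      simp [geo]
    rw [hw0]
    refine ⟨one_pos, ?_⟩
    have hf : ∀ s : ℕ, (fun k n => (G (U 1) k n : ℚ)) 0 (r + 2 * s) = (-1) ^ r + 0 * s := by
      intro s
      rw [hFeval, hF0, eval_C]
      ring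
    have hT : T 3 0 n = (-1) ^ (ρ + ε) * (-1) ^ r * (G (U 3) 0 n : ℚ) := by
      unfold T
      have := hpat 0
      rw [mul_zero, add_zero] at this
      rw [this]
    have hcase : ε = 0 ∨ ε = 1 := Nat.le_one_iff_eq_zero_or_eq_one.mp (Nat.lt_succ_iff.mp hε2)
    rcases hcase with hε0 | hε1
    · have h3 := two_stage_zero h1 h2 hr2 _ _ hf hρ3
      have h4 : r + 2 * ρ = n := by omega
      simp only [h4] at h3
      rw [hT, h3, hε0, add_zero]
      rcases neg_one_pow_eq_or ℚ ρ with h | h <;> rcases neg_one_pow_eq_or ℚ r with h' | h' <;>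
        rw [h, h'] <;> norm_num
    · have h3 := two_stage_zero' (by decide : Odd 3) h1 h2 hr2 _ _ hf hρ3
      have h4 : r + 2 * (ρ + 3) = n := by omega
      simp only [h4] at h3
      rw [hT, h3, hε1, pow_succ]
      rcases neg_one_pow_eq_or ℚ ρ with h | h <;> rcases neg_one_pow_eq_or ℚ r with h' | h' <;>
        rw [h, h'] <;> norm_num
  · intro k
    beta_reduce
    have h8 : ((k + 1).factorial : ℚ) ≠ 0 := by positivity
    constructor
    · have h9 : 1 ≤ geo 3 k := geo_ge_one (by norm_num) k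
      have h10 : (1 : ℚ) ≤ 2 ^ k := one_le_pow₀ (by norm_num)
      have h11 : ((k + 1).factorial : ℚ) * (2 ^ k * geo 3 k / ((k + 1).factorial : ℚ))
          = 2 ^ k * geo 3 k := by
        field_simp
      rw [h11]
      simp [geo]
      have : 1 * 1 ≤ 2 ^ k * geo 3 k := mul_le_mul h10 h9 (by norm_num) (by positivity)
      simpa [geo] using this
    · obtain ⟨Q, q1, q2, q3⟩ := two_stage (by decide : Odd 3) h1 h2 hr2 F hFeval
        (fun k => (hFdeg k).trans (Nat.le_succ k)) k ε hρ3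
      refine ⟨C ((-1) ^ (ρ + ε) * (-1) ^ r) * Q, le_trans (natDegree_C_mul_le _ _) q1, ?_, ?_⟩
      · rw [coeff_C_mul, q2, coeff_eq_zero_of_natDegree_lt (Nat.lt_succ_of_le (hFdeg k)), hF0]
        simp only [coeff_C_zero, coeff_C_succ]
        push_cast
        calc _ = ((-1 : ℚ) ^ (ρ + ε) * (-1) ^ (ρ + ε)) * ((-1) ^ r * (-1) ^ r) *
              (2 ^ k * geo 3 k / ((k + 1).factorial : ℚ)) := by
              rw [pow_succ (2 : ℚ) k]
              ring
          _ = _ := by rw [hρρ, hrr]; ring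
      · intro j
        unfold T
        rw [hpat j, eval_mul, eval_C]
        congr 1
        rw [← q3 j]
        have : r + 2 * (ρ + 3 * (2 * j + ε)) = n + 12 * j := by omega
        simp only [this]

lemma hyp_all (j : ℕ) : Hyp (2 * (2 * j + 3).factorial) (T (2 * j + 3)) := by
  induction j with
  | zero => exact hyp_base
  | succ j ih =>
    have e1 : (j + 2) * (2 * (2 * j + 3).factorial) = (2 * j + 3 + 1).factorial := by
      rw [Nat.factorial_succ (2 * j + 3)]
      ring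
    have e2 : (2 * j + 5) * ((j + 2) * (2 * (2 * j + 3).factorial))
        = (2 * j + 4 + 1).factorial := by
      rw [e1, Nat.factorial_succ (2 * j + 4)]
    have h1 : RecA ((j + 2) * (2 * (2 * j + 3).factorial)) (T (2 * j + 3)) (T (2 * j + 4)) := by
      rw [e1]
      exact recA_T (by omega)
    have h2 : RecA ((2 * j + 5) * ((j + 2) * (2 * (2 * j + 3).factorial))) (T (2 * j + 4))
        (T (2 * j + 5)) := by
      rw [e2]
      exact recA_T (by omega)
    have h3 := hyp_step (Nat.mul_pos two_pos (Nat.factorial_pos _)) (by omega)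
      (⟨j + 2, by ring⟩ : Odd (2 * j + 5)) (by omega) ih h1 h2
    rw [e2] at h3
    exact h3

lemma evPos_all {m : ℕ} (hm : 3 ≤ m) (k : ℕ) : EvPos (T m k) := by
  rcases Nat.even_or_odd m with he | ho
  · obtain ⟨j, rfl⟩ : ∃ j, m = 2 * j + 4 := by
      rcases he with ⟨u, hu⟩
      exact ⟨u - 2, by omega⟩
    have e1 : (j + 2) * (2 * (2 * j + 3).factorial) = (2 * j + 3 + 1).factorial := by
      rw [Nat.factorial_succ (2 * j + 3)]
      ring
    have h1 : RecA ((j + 2) * (2 * (2 * j + 3).factorial)) (T (2 * j + 3)) (T (2 * j + 4)) := by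
      rw [e1]
      exact recA_T (by omega)
    exact mid_evPos (Nat.mul_pos two_pos (Nat.factorial_pos _)) (by omega) (hyp_all j) h1 k
  · obtain ⟨j, rfl⟩ : ∃ j, m = 2 * j + 3 := by
      rcases ho with ⟨u, hu⟩
      exact ⟨u - 1, by omega⟩
    exact (hyp_all j).evPos (Nat.mul_pos two_pos (Nat.factorial_pos _)) k

lemma weight_evPos {m : ℕ} (hm : 3 ≤ m) (k : ℕ) : ∀ j : ℕ, ∃ N : ℕ, ∀ n ≥ N,
    0 < (-1 : ℤ) ^ ((n + 1) / 2) * Sw (fun i => (i : ℤ) ^ k * (i.choose j : ℤ)) (U m) n := by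
  induction k with
  | zero =>
    intro j
    obtain ⟨N, hN⟩ := evPos_all hm j
    refine ⟨N, fun n hn => ?_⟩
    have h1 := hN n hn
    unfold T at h1
    have h2 : (fun i : ℕ => (i : ℤ) ^ 0 * (i.choose j : ℤ)) = fun i : ℕ => (i.choose j : ℤ) := by
      funext i
      simp
    rw [h2]
    change 0 < (-1 : ℤ) ^ ((n + 1) / 2) * G (U m) j n
    exact_mod_cast h1
  | succ k ih =>
    intro j
    obtain ⟨N1, hN1⟩ := ih j
    obtain ⟨N2, hN2⟩ := ih (j + 1)
    refine ⟨max N1 N2, fun n hn => ?_⟩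
    have h1 := hN1 n (le_trans (le_max_left _ _) hn)
    have h2 := hN2 n (le_trans (le_max_right _ _) hn)
    have h3 : (fun i : ℕ => (i : ℤ) ^ (k + 1) * (i.choose j : ℤ))
        = fun i : ℕ => (j : ℤ) * ((i : ℤ) ^ k * (i.choose j : ℤ))
          + ((j : ℤ) + 1) * ((i : ℤ) ^ k * (i.choose (j + 1) : ℤ)) := by
      funext i
      have h4 : (i : ℤ) * (i.choose j : ℤ)
          = (j : ℤ) * (i.choose j : ℤ) + ((j : ℤ) + 1) * (i.choose (j + 1) : ℤ) := by
        rcases le_or_gt j i with h | h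
        · have h5 := Nat.choose_succ_right_eq i j
          have h6 : ((i.choose (j + 1) : ℕ) : ℤ) * ((j : ℤ) + 1)
              = (i.choose j : ℤ) * ((i : ℤ) - (j : ℤ)) := by
            have := congrArg (Nat.cast : ℕ → ℤ) h5
            push_cast [Nat.cast_sub h] at this
            exact this
          linarith
        · rw [Nat.choose_eq_zero_of_lt h, Nat.choose_eq_zero_of_lt (by omega)]
          simp
      calc (i : ℤ) ^ (k + 1) * (i.choose j : ℤ) = (i : ℤ) ^ k * ((i : ℤ) * (i.choose j : ℤ)) := by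
            ring
        _ = _ := by rw [h4]; ring
    rw [h3, Sw_add, Sw_mul, Sw_mul]
    have h7 : (0 : ℤ) ≤ j := by positivity
    have h8 : 0 ≤ (j : ℤ) * ((-1 : ℤ) ^ ((n + 1) / 2) *
      Sw (fun i => (i : ℤ) ^ k * (i.choose j : ℤ)) (U m) n) := mul_nonneg h7 h1.le
    have h9 : 0 < ((j : ℤ) + 1) * ((-1 : ℤ) ^ ((n + 1) / 2) *
      Sw (fun i => (i : ℤ) ^ k * (i.choose (j + 1) : ℤ)) (U m) n) :=
      mul_pos (by positivity) h2
    calc (0 : ℤ) < _ := add_pos_of_nonneg_of_pos h8 h9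
      _ = _ := by ring

/-- the main theorem -/
theorem main {m : ℕ} (hm : 3 ≤ m) (k : ℕ) :
    ∃ N : ℕ, ∀ n ≥ N, 0 < (-1 : ℤ) ^ ((n + 1) / 2) * S (U m) k n := by
  obtain ⟨N, hN⟩ := weight_evPos hm k 0
  refine ⟨N, fun n hn => ?_⟩
  rw [S_eq_Sw]
  simpa using hN n hn

theorem two_zero (n : ℕ) : 0 ≤ (-1 : ℤ) ^ ((n + 1) / 2) * S (U 2) 0 n := by
  have h0 : S (U 2) 0 n = G (U 2) 0 n := by
    rw [S_eq_Sw, G]
    simp
  have h1 : RecA 2 (fun k n => (G (U 1) k n : ℚ)) (fun k n => (G (U 2) k n : ℚ)) := recA_G 1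
  have hr2 : n % 2 < 2 := Nat.mod_lt _ (by norm_num)
  have hf : ∀ s : ℕ, (fun k s => (fun k n => (G (U 1) k n : ℚ)) k (n % 2 + 2 * s)) 0 s
      = (-1) ^ (n % 2) + 0 * s := by
    intro s
    beta_reduce
    rw [G_one_poly, binomPoly_zero]
    simp
  have h2 := stage0_explicit (h1.rec1 hr2) _ _ hf (n / 2)
  simp only [Nat.mod_add_div] at h2
  have h3 : (0 : ℚ) ≤ (-1 : ℚ) ^ ((n + 1) / 2) * (G (U 2) 0 n : ℚ) := by
    rw [h2]
    have h4 : (n + 1) / 2 = n / 2 + n % 2 := by omega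
    rw [h4, pow_add]
    rcases neg_one_pow_eq_or ℚ (n / 2) with h | h <;>
      rcases neg_one_pow_eq_or ℚ (n % 2) with h' | h' <;> rw [h, h'] <;> norm_num
  rw [h0]
  exact_mod_cast h3

end Pool.Agent.Lib.MP_e74e95_nt
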